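import Pool.Agent.Helper37.BT.Basic

/-!
# Project TQ: the certificates may be raised to a larger degree
-/

universe u

namespace Pool.Agent.BT

open MvPolynomial

variable {K : Type u} [Field K] {N d n : ℕ} {U : Type} [Fintype U] {e : U → ℕ}

theorem cert_succ {Q₁ Q₂ : MvPolynomial (Fin (N + 2)) K} {f : MonV (N + 2) d → K}
    {rel : ∀ u, MonV (N + 2) (e u) → K} {a M : ℕ} (ha : a ≤ M)
    (h : ∀ q : MonV (N + 2) M, ∃ (A B : MonV (N + 2) (M - a) → K) (H : MonV (N + 2) M → K)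
      (H' : U → MonV (N + 2) M → K),
      pol A * Q₁ + pol B * Q₂ + comb f rel H H' = monomial q.1 1) :
    ∀ q : MonV (N + 2) (M + 1), ∃ (A B : MonV (N + 2) (M + 1 - a) → K)
      (H : MonV (N + 2) (M + 1) → K) (H' : U → MonV (N + 2) (M + 1) → K),
      pol A * Q₁ + pol B * Q₂ + comb f rel H H' = monomial q.1 1 := by
  classical
  intro q
  obtain ⟨m, q', hm, hq⟩ : ∃ (m : MvPolynomial (Fin (N + 2)) K) (q' : MonV (N + 2) M),
      m.totalDegree ≤ 1 ∧ m * monomial q'.1 1 = monomial q.1 1 := by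
    by_cases hq : q.1.degree ≤ M
    · exact ⟨1, ⟨q.1, hq⟩, by rw [totalDegree_one]; exact Nat.zero_le _, one_mul _⟩
    · obtain ⟨v, hv⟩ : ∃ v, q.1 v ≠ 0 := by
        by_contra hc
        push Not at hc
        have h0 : q.1 = 0 := Finsupp.ext hc
        rw [h0] at hq
        exact hq (by simp)
      have h1 : Finsupp.single v 1 + (q.1 - Finsupp.single v 1) = q.1 := by
        refine add_tsub_cancel_of_le ?_
        rw [Finsupp.single_le_iff]
        exact Nat.one_le_iff_ne_zero.2 hv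
      have h2 := congrArg Finsupp.degree h1
      rw [map_add, Finsupp.degree_single] at h2
      have h3 := q.2
      refine ⟨X v, ⟨q.1 - Finsupp.single v 1, by omega⟩, (totalDegree_X v).le, ?_⟩
      change monomial (Finsupp.single v 1) 1 * monomial (q.1 - Finsupp.single v 1) 1 = _
      rw [monomial_mul, one_mul, h1]
  obtain ⟨A, B, H, H', hid⟩ := h q'
  have hdeg : ∀ {b c : ℕ} (g : MonV (N + 2) b → K), 1 + b ≤ c → (m * pol g).totalDegree ≤ c :=
    fun g hc => (totalDegree_mul _ _).trans ((Nat.add_le_add hm (totalDegree_pol_le g)).trans hc)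
  obtain ⟨A₁, hA⟩ := exists_pol (D := M + 1 - a) (hdeg A (by omega))
  obtain ⟨B₁, hB⟩ := exists_pol (D := M + 1 - a) (hdeg B (by omega))
  obtain ⟨H₁, hH⟩ := exists_pol (D := M + 1) (hdeg H (by omega))
  choose H₁' hH' using fun u => exists_pol (D := M + 1) (hdeg (H' u) (by omega))
  refine ⟨A₁, B₁, H₁, H₁', ?_⟩
  rw [← hq, ← hid]
  unfold comb
  simp only [hA, hB, hH, hH', mul_add, Finset.mul_sum, mul_assoc]

theorem cert_mono {Q₁ Q₂ : MvPolynomial (Fin (N + 2)) K} {f : MonV (N + 2) d → K}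
    {rel : ∀ u, MonV (N + 2) (e u) → K} {a M M' : ℕ} (ha : a ≤ M) (hM : M ≤ M')
    (h : ∀ q : MonV (N + 2) M, ∃ (A B : MonV (N + 2) (M - a) → K) (H : MonV (N + 2) M → K)
      (H' : U → MonV (N + 2) M → K),
      pol A * Q₁ + pol B * Q₂ + comb f rel H H' = monomial q.1 1) :
    ∀ q : MonV (N + 2) M', ∃ (A B : MonV (N + 2) (M' - a) → K)
      (H : MonV (N + 2) M' → K) (H' : U → MonV (N + 2) M' → K),
      pol A * Q₁ + pol B * Q₂ + comb f rel H H' = monomial q.1 1 := by
  induction M', hM using Nat.le_induction with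
  | base => exact h
  | succ k hk ih => exact cert_succ (ha.trans hk) ih

/-- **monotonicity of `Cop`** -/
theorem Cop.mono {G G' : MonV (N + 2) n → K} {f : MonV (N + 2) d → K}
    {rel : ∀ u, MonV (N + 2) (e u) → K} {M M' : ℕ} (h : Cop G G' f rel M) (hn : n ≤ M)
    (hM : M ≤ M') : Cop G G' f rel M' :=
  cert_mono hn hM h

/-- **monotonicity of `FinX`** -/
theorem FinX.mono {f : MonV (N + 2) d → K} {rel : ∀ u, MonV (N + 2) (e u) → K} {M M' : ℕ}
    (h : FinX f rel M) (h1 : 1 ≤ M) (hM : M ≤ M') : FinX f rel M' := by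
  have h2 := cert_mono (Q₁ := X 0) (Q₂ := 1) h1 hM fun q => by
    obtain ⟨A, B, H, H', hid⟩ := h q
    exact ⟨A, B, H, H', by rw [mul_one, hid]⟩
  intro q
  obtain ⟨A, B, H, H', hid⟩ := h2 q
  exact ⟨A, B, H, H', by rw [← hid, mul_one]⟩

theorem polX_ext {M M' : ℕ} (hM : M ≤ M') (c : Fin (M + 1) → K) :
    (polX (fun i : Fin (M' + 1) => if h : (i : ℕ) < M + 1 then c ⟨i, h⟩ else 0) :
      MvPolynomial (Fin (N + 2)) K) = polX c := by
  classical
  unfold polX
  have h1 : ∀ (L : ℕ), M ≤ L → ∑ i : Fin (L + 1),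
      C (if h : (i : ℕ) < M + 1 then c ⟨i, h⟩ else 0) * (X 0 : MvPolynomial (Fin (N + 2)) K) ^ (i : ℕ) =
      ∑ i : Fin (M + 1), C (c i) * X 0 ^ (i : ℕ) := by
    intro L hL
    induction L, hL using Nat.le_induction with
    | base =>
      refine Finset.sum_congr rfl fun i _ => ?_
      rw [dif_pos i.2]
    | succ k hk ih =>
      rw [Fin.sum_univ_castSucc, Fin.val_last, dif_neg (by omega), map_zero, zero_mul, add_zero]
      exact ih
  exact h1 M' hM

/-- **monotonicity of the norm relation** `D * G ≡ c(x)` -/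
theorem norm_mono {G : MonV (N + 2) n → K} {f : MonV (N + 2) d → K}
    {rel : ∀ u, MonV (N + 2) (e u) → K} {M M' : ℕ} (hM : M ≤ M')
    (h : ∃ (D D' : MonV (N + 2) M → K) (D'' : U → MonV (N + 2) M → K) (c : Fin (M + 1) → K),
      c ≠ 0 ∧ pol D * pol G + comb f rel D' D'' = polX c) :
    ∃ (D D' : MonV (N + 2) M' → K) (D'' : U → MonV (N + 2) M' → K) (c : Fin (M' + 1) → K),
      c ≠ 0 ∧ pol D * pol G + comb f rel D' D'' = polX c := by
  classical
  obtain ⟨D, D', D'', c, hc, hid⟩ := h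
  obtain ⟨A, hA⟩ := exists_pol (D := M') ((totalDegree_pol_le D).trans hM)
  obtain ⟨A', hA'⟩ := exists_pol (D := M') ((totalDegree_pol_le D').trans hM)
  choose A'' hA'' using fun u => exists_pol (D := M') ((totalDegree_pol_le (D'' u)).trans hM)
  refine ⟨A, A', A'', fun i => if h : (i : ℕ) < M + 1 then c ⟨i, h⟩ else 0, ?_, ?_⟩
  · obtain ⟨j, hj⟩ := Function.ne_iff.1 hc
    refine Function.ne_iff.2 ⟨⟨j, by omega⟩, ?_⟩
    change (if h : (j : ℕ) < M + 1 then c ⟨j, h⟩ else 0) ≠ 0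
    rw [dif_pos j.2]
    exact hj
  · rw [polX_ext hM, ← hid]
    unfold comb
    simp only [hA, hA', hA'']

/-- the norm relations of a family -/
theorem norm_mono_family {ι : Type} {G : ι → MonV (N + 2) n → K} {f : MonV (N + 2) d → K}
    {rel : ∀ u, MonV (N + 2) (e u) → K} {M M' : ℕ} (hM : M ≤ M')
    (h : ∃ (D D' : ι → MonV (N + 2) M → K) (D'' : ι → U → MonV (N + 2) M → K)
      (c : ι → Fin (M + 1) → K), ∀ i,
      c i ≠ 0 ∧ pol (D i) * pol (G i) + comb f rel (D' i) (D'' i) = polX (c i)) :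
    ∃ (D D' : ι → MonV (N + 2) M' → K) (D'' : ι → U → MonV (N + 2) M' → K)
      (c : ι → Fin (M' + 1) → K), ∀ i,
      c i ≠ 0 ∧ pol (D i) * pol (G i) + comb f rel (D' i) (D'' i) = polX (c i) := by
  obtain ⟨D, D', D'', c, h⟩ := h
  choose A A' A'' b hb using fun i => norm_mono hM ⟨D i, D' i, D'' i, c i, h i⟩
  exact ⟨A, A', A'', b, hb⟩

end Pool.Agent.BT
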